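import Pool.Agent.H14.Cr1
set_option autoImplicit false

namespace Pool.Agent.Results.MP_9de7c4_an.Unbounded
open Polynomial

/-- darga: lowest exponent plus highest exponent. -/
noncomputable def darga (p : ℂ[X]) : ℕ := p.natTrailingDegree + p.natDegree

/-- S(p): the α > 0 for which α (x^n + 1) + p(x) has all its roots on the unit circle. -/
def S (p : ℂ[X]) : Set ℝ :=
  {α | 0 < α ∧ ∀ x : ℂ, (C (α : ℂ) * (X ^ darga p + 1) + p).IsRoot x → ‖x‖ = 1}

open Pool.Agent.H14.Cr Finset Filter Topology in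
theorem result (K : ℕ) : ∃ p : ℂ[X], p ≠ 0 ∧
    (∀ j ≤ darga p, p.coeff j = starRingEnd ℂ (p.coeff (darga p - j))) ∧
    p.natDegree < darga p ∧ (K : ℕ∞) ≤ (connectedComponentIn (S p) '' S p).encard := by
  classical
  obtain ⟨s, c, sc, c0, s1, hT⟩ := roots (2 * K + 1 + 1)
  obtain ⟨a, ha, am⟩ := exists_min_image s id (card_pos.1 (by omega))
  set Z := s.erase a
  have zc : #Z = 2 * K + 1 := by rw [card_erase_of_mem ha, sc]; rfl
  have az : a ∉ Z := notMem_erase a s
  have lt : ∀ r ∈ Z, a < r := fun r hr =>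
    lt_of_le_of_ne (am r (mem_of_mem_erase hr)) (ne_of_mem_erase hr).symm
  rw [← insert_erase ha, ← zc] at hT
  set W := ∏ r ∈ Z, (X - C r) with hW
  obtain ⟨τ, J, JZ, JK, hτ⟩ : ∃ (τ : ℝ) (J : Finset ℝ), J ⊆ Z ∧ K ≤ #J ∧
      ∀ r ∈ J, 0 < τ / c * (derivative W).eval r := by
    have := card_filter_add_card_filter_not (s := Z) fun r => 0 < (derivative W).eval r
    by_cases h : K ≤ #(Z.filter fun r => 0 < (derivative W).eval r)
    · exact ⟨c, _, filter_subset _ _, h, fun r hr => by simpa [c0] using (mem_filter.1 hr).2⟩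
    · refine ⟨-c, Z.filter fun r => ¬ 0 < (derivative W).eval r, filter_subset _ _, by omega,
        fun r hr => ?_⟩
      have := lt_of_le_of_ne (not_lt.1 (mem_filter.1 hr).2) (dne Z r (mem_filter.1 hr).1)
      simpa [c0, neg_div] using this
  have hu : ∀ r ∈ Z, ∃ u, r < u ∧ u < 1 ∧ ∀ t ∈ Z, r < t → u < t := fun r hr =>
    ((eventually_mem_nhdsWithin (a := r) (s := Set.Ioi r)).and
      ((((isOpen_gt' 1).eventually_mem (abs_lt.1 (s1 r (mem_of_mem_erase hr))).2).and
      ((eventually_all_finset Z).2 fun t _ => by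
        by_cases h : r < t
        · exact ((isOpen_gt' t).eventually_mem h).mono fun u hu _ => hu
        · simp [h])).filter_mono nhdsWithin_le_nhds)).exists
  choose! u u1 u2 u3 using hu
  have un : ∀ r ∈ Z, u r ∉ Z := fun r hr h => lt_irrefl _ (u3 r hr _ h (u1 r hr))
  have ev : ∀ r ∈ Z, ∀ᶠ δ in 𝓝 (0 : ℝ), ∀ z : ℂ, aeval z ((X - C (u r)) * W +
      C (δ * τ / (2 * c * (u r - a)⁻¹))) = 0 → ∃ y : ℝ, |y| < 1 ∧ z = y := fun r hr => by
    have := pert (insert (u r) Z) (fun t ht => by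
      rcases mem_insert.1 ht with rfl | ht
      · exact abs_lt.2 ⟨(abs_lt.1 (s1 r (mem_of_mem_erase hr))).1.trans (u1 r hr), u2 r hr⟩
      · exact s1 t (mem_of_mem_erase ht)) (insert_nonempty _ _)
    rw [prod_insert (un r hr)] at this
    refine Tendsto.eventually (f := fun δ => δ * τ / (2 * c * (u r - a)⁻¹)) ?_ this
    exact Continuous.tendsto' (by fun_prop) _ _ (by simp)
  obtain ⟨δ, δ0, hδ⟩ := ((eventually_mem_nhdsWithin (a := (0 : ℝ)) (s := Set.Ioi 0)).and
    (((eventually_all_finset Z).2 ev).filter_mono nhdsWithin_le_nhds)).exists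
  have δ1 : 0 < δ := δ0
  set p := (q Z c (δ * τ)).map (algebraMap ℝ ℂ) with hp
  have p0 : p ≠ 0 := (Polynomial.map_ne_zero_iff (algebraMap ℝ ℂ).injective).2 fun h =>
    q1 Z c (δ * τ) c0 (by omega) (by simp [h])
  have sy := qsy Z c (δ * τ)
  have dg : darga p = 2 * (#Z + 1) := sy.dg p0
  have rt : ∀ (α : ℝ) (x : ℂ), (C (α : ℂ) * (X ^ darga p + 1) + p).IsRoot x ↔
      α * (x ^ (2 * (#Z + 1)) + 1) + aeval x (q Z c (δ * τ)) = 0 := fun α x => by
    rw [dg, IsRoot.def, eval_add, hp, eval_map_algebraMap]; simp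
  have inS : ∀ r ∈ Z, (u r - a)⁻¹ ∈ S p := fun r hr => by
    have h : 0 < (u r - a)⁻¹ := inv_pos.2 (by linarith [lt r hr, u1 r hr])
    refine ⟨h, fun x hx => ?_⟩
    rw [rt] at hx
    have x0 : x ≠ 0 := by
      rintro rfl
      rw [← coeff_zero_eq_aeval_zero', q0] at hx
      simp at hx
      exact_mod_cast h.ne' (by rw [inv_eq_zero]; exact_mod_cast hx)
    rw [qev Z c _ a _ az c0 h.ne' hT x x0, inv_inv, add_sub_cancel] at hx
    obtain ⟨y, y1, y2⟩ := hδ r hr _ hx
    exact circ x x0 y y1 y2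
  have nS : ∀ r ∈ J, (r - a)⁻¹ ∉ S p := fun r hr ⟨h, k⟩ => by
    have := lag _ ((X - C r) * W + C (δ * τ / (2 * c * (r - a)⁻¹))) rfl (fun z hz => by
      obtain ⟨x, x0, x1, x2⟩ := unc z
      refine x2 (k x ?_)
      rw [rt, qev Z c _ a _ az c0 h.ne' hT x x0, inv_inv, add_sub_cancel, x1]
      exact hz) r
    have w0 : W.eval r = 0 := by simp [hW, eval_prod, prod_eq_zero_iff, sub_eq_zero, JZ hr]
    simp only [derivative_mul, derivative_add, derivative_sub, derivative_X, derivative_C,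
      derivative_one, derivative_zero, eval_add, eval_mul, eval_sub, eval_X, eval_C, eval_one,
      eval_zero, sub_zero, w0, sub_self] at this
    have t := mul_pos (mul_pos δ1 (inv_pos.1 h)) (hτ r hr)
    have e : δ * τ / (2 * c * (r - a)⁻¹) = δ * (r - a) * (τ / c) / 2 := by field_simp
    rw [e] at this
    nlinarith
  refine ⟨p, p0, fun j hj => ?_, ?_, ?_⟩
  · rw [dg] at hj ⊢
    rw [← sy.co hj]; simp [hp]
  · have := natTrailingDegree_ne_zero.2 ⟨p0, by simp [hp, q0]⟩
    unfold darga; omega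
  · have key : ∀ r ∈ J, ∀ t ∈ J, r < t → connectedComponentIn (S p) (u r - a)⁻¹ ≠
        connectedComponentIn (S p) (u t - a)⁻¹ := fun r hr t ht h e => by
      have := lt r (JZ hr); have := u1 r (JZ hr); have := u1 t (JZ ht)
      have := u3 r (JZ hr) t (JZ ht) h
      refine nS t ht (connectedComponentIn_subset _ _
        (isPreconnected_connectedComponentIn.Icc_subset (mem_connectedComponentIn (inS t (JZ ht)))
          (e ▸ mem_connectedComponentIn (inS r (JZ hr))) ⟨?_, ?_⟩)) <;>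
        exact inv_anti₀ (by linarith) (by linarith)
    calc (K : ℕ∞) ≤ (J : Set ℝ).encard := by rw [Set.encard_coe_eq_coe_finsetCard]; exact_mod_cast JK
      _ = _ := (Set.InjOn.encard_image (f := fun r => connectedComponentIn (S p) (u r - a)⁻¹)
          fun r hr t ht e => by
            rcases lt_trichotomy r t with h | h | h
            exacts [absurd e (key r hr t ht h), h, absurd e.symm (key t ht r hr h)]).symm
      _ ≤ _ := Set.encard_le_encard (by
          rintro _ ⟨r, hr, rfl⟩; exact ⟨_, inS r (JZ hr), rfl⟩)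

end Pool.Agent.Results.MP_9de7c4_an.Unbounded
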